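import Pool.Agent.Helper578.JD.Core
import Pool.Agent.Helper578.JD.Comp
import Mathlib

/-!
A conform Blum measure with a complexity class that is not recursively enumerable.
-/

namespace Pool.Agent.Results.MP_9ab454_lc.ConformNotRe

open Nat.Partrec Encodable Filter Pool.Agent.Helper578.JD Pool.Agent.Helper578.JD.RE

/-- `φ` is an acceptable Gödel numbering of the unary partial recursive functions: it is
uniformly partial recursive, and every uniformly partial recursive sequence can be translated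
into it by a recursive function. -/
def Acceptable (φ : ℕ → ℕ →. ℕ) : Prop :=
  Partrec₂ φ ∧ ∀ ψ : ℕ → ℕ →. ℕ, Partrec₂ ψ → ∃ f : ℕ → ℕ, Computable f ∧ ∀ i, φ (f i) = ψ i

/-- `(φ, Φ)` is a Blum measure. -/
structure IsBlum (φ Φ : ℕ → ℕ →. ℕ) : Prop where
  acc : Acceptable φ
  prec : ∀ i, Partrec (Φ i)
  dom : ∀ i x, (Φ i x).Dom ↔ (φ i x).Dom
  dec : ComputablePred fun p : ℕ × ℕ × ℕ => p.2.2 ∈ Φ p.1 p.2.1

/-- The index set `ΩΦ(t)` of the complexity class of `t`. -/
def idx (φ Φ : ℕ → ℕ →. ℕ) (t : ℕ → ℕ) : Set ℕ :=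
  {i | (∀ x, (φ i x).Dom) ∧ ∀ᶠ x in atTop, ∃ y ∈ Φ i x, y ≤ t x}

/-- The complexity class `Φ(t)`, a set of total functions. -/
def cls (φ Φ : ℕ → ℕ →. ℕ) (t : ℕ → ℕ) : Set (ℕ → ℕ) :=
  {f | ∃ i ∈ idx φ Φ t, ∀ x, f x ∈ φ i x}

/-- `Φ` is conform: the index sets of all nonempty complexity classes are one-one
equivalent. -/
def Conform (φ Φ : ℕ → ℕ →. ℕ) : Prop :=
  ∀ t₁ t₂ : ℕ → ℕ, Computable t₁ → Computable t₂ → (cls φ Φ t₁).Nonempty →
    (cls φ Φ t₂).Nonempty → OneOneEquiv (· ∈ idx φ Φ t₁) (· ∈ idx φ Φ t₂)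

/-- A class of total functions is recursively enumerable (with respect to `φ`). -/
def ReClass (φ : ℕ → ℕ →. ℕ) (C : Set (ℕ → ℕ)) : Prop :=
  C = ∅ ∨ ∃ g : ℕ → ℕ, Computable g ∧ (∀ n, ∃ f ∈ C, ∀ x, f x ∈ φ (g n) x) ∧
    ∀ f ∈ C, ∃ n, ∀ x, f x ∈ φ (g n) x

/-! ### The measure -/

/-- the code with number `p` -/
abbrev cd (p : ℕ) : Code := Denumerable.ofNat Code p

/-- `s` is the running time of the code `p` on `x`. -/
def steps (p x s : ℕ) : Bool := (Code.evaln s (cd p) x).isSome && !(Code.evaln (s - 1) (cd p) x).isSome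

/-- the output -/
def outp (p x s : ℕ) : ℕ := (Code.evaln s (cd p) x).getD 0

/-- a new element enters `W_a` at stage `x` -/
def ev (a x : ℕ) : Bool := RE.exB (fun y => steps a y x) x

/-- cost predicate of the base measure -/
def G0 (e x y : ℕ) : Bool :=
  bif e.unpair.1 == 0 then steps e.unpair.2 x y
  else (y == bif (Code.evaln x (cd e.unpair.2) 0).isSome then 1 else 0)

/-- output of the base measure -/
def out0 (e x y : ℕ) : ℕ :=
  bif e.unpair.1 == 0 then outp e.unpair.2 x y else e.unpair.2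

/-- parameters of a special index -/
def pe (i : ℕ) : ℕ := i.unpair.2.unpair.1
def pa (i : ℕ) : ℕ := i.unpair.2.unpair.2.unpair.1
def pk (i : ℕ) : ℕ := i.unpair.2.unpair.2.unpair.2

/-- the cost predicate -/
def G (i x y : ℕ) : Bool :=
  bif decide (i.unpair.1 < 2) then G0 i x y
  else bif ev (pa i) x then
    decide (1 ≤ y) && (G0 (pe i) x (y - 1).unpair.1 &&
      (steps (pk i) x (y - 1).unpair.2.unpair.1 &&
      decide (outp (pk i) x (y - 1).unpair.2.unpair.1 = (y - 1).unpair.2.unpair.2)))
  else G0 (pe i) x y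

/-- the output -/
def out (i x y : ℕ) : ℕ :=
  bif decide (i.unpair.1 < 2) then out0 i x y
  else bif ev (pa i) x then out0 (pe i) x (y - 1).unpair.1
  else out0 (pe i) x y

def GP (i x : ℕ) : ℕ →. Bool := fun y => Part.some (G i x y)
def Ph (i : ℕ) : ℕ →. ℕ := fun x => Nat.rfind (GP i x)
def ph (i : ℕ) : ℕ →. ℕ := fun x => (Ph i x).map (out i x)

/-! ### Computability -/

section comp

variable {α : Type*} [Primcodable α]

theorem c_evaln {s p x : α → ℕ} (hs : Computable s) (hp : Computable p) (hx : Computable x) :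
    Computable fun a => Code.evaln (s a) (cd (p a)) (x a) :=
  Code.primrec_evaln.to_comp.comp ((hs.pair ((Computable.ofNat Code).comp hp)).pair hx)

theorem c_steps {p x s : α → ℕ} (hp : Computable p) (hx : Computable x) (hs : Computable s) :
    Computable fun a => steps (p a) (x a) (s a) := by
  have h2 : Computable fun a => s a - 1 := by fun_prop
  exact RE.cand (cisSome (c_evaln hs hp hx)) (cnot (cisSome (c_evaln h2 hp hx)))

theorem c_outp {p x s : α → ℕ} (hp : Computable p) (hx : Computable x) (hs : Computable s) :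
    Computable fun a => outp (p a) (x a) (s a) :=
  Computable.option_getD (c_evaln hs hp hx) (Computable.const 0)

theorem c_ev {p x : α → ℕ} (hp : Computable p) (hx : Computable x) :
    Computable fun a => ev (p a) (x a) := by
  refine RE.computable_exB (q := fun (a : α) y => steps (p a) y (x a)) ?_ hx
  exact c_steps (hp.comp Computable.fst) Computable.snd (hx.comp Computable.fst)

theorem c_G0 {p x s : α → ℕ} (hp : Computable p) (hx : Computable x) (hs : Computable s) :
    Computable fun a => G0 (p a) (x a) (s a) := by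
  refine ccond ?_ (c_steps (by fun_prop) hx hs) ?_
  · have : Computable fun a => decide ((p a).unpair.1 = 0) :=
      cdecide (cp_eq (by fun_prop) (by fun_prop))
    exact this.of_eq fun p => by simp [beq_eq_decide]
  · have : Computable fun a => decide (s a =
        bif (Code.evaln (x a) (cd (p a).unpair.2) 0).isSome then 1 else 0) :=
      cdecide (cp_eq (by fun_prop) (ccond (cisSome (c_evaln hx (by fun_prop)
        (Computable.const 0))) (by fun_prop) (by fun_prop)))
    exact this.of_eq fun p => by simp [beq_eq_decide]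

theorem c_out0 {p x s : α → ℕ} (hp : Computable p) (hx : Computable x) (hs : Computable s) :
    Computable fun a => out0 (p a) (x a) (s a) := by
  refine ccond ?_ (c_outp (by fun_prop) hx hs) (by fun_prop)
  have : Computable fun a => decide ((p a).unpair.1 = 0) :=
    cdecide (cp_eq (by fun_prop) (by fun_prop))
  exact this.of_eq fun p => by simp [beq_eq_decide]

theorem c_pe : Computable pe := by unfold pe; fun_prop
theorem c_pa : Computable pa := by unfold pa; fun_prop
theorem c_pk : Computable pk := by unfold pk; fun_prop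

theorem c_G {p x s : α → ℕ} (hp : Computable p) (hx : Computable x) (hs : Computable s) :
    Computable fun a => G (p a) (x a) (s a) := by
  have e1 := c_pe
  have e2 := c_pa
  have e3 := c_pk
  refine ccond (cdecide (cp_lt (by fun_prop) (by fun_prop))) (c_G0 hp hx hs)
    (ccond (c_ev (by fun_prop) hx) ?_ (c_G0 (by fun_prop) hx hs))
  refine RE.cand (cdecide (cp_le (by fun_prop) (by fun_prop)))
    (RE.cand (c_G0 (by fun_prop) hx (by fun_prop))
      (RE.cand (c_steps (by fun_prop) hx (by fun_prop)) ?_))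
  exact cdecide (cp_eq (c_outp (by fun_prop) hx (by fun_prop)) (by fun_prop))

theorem c_out {p x s : α → ℕ} (hp : Computable p) (hx : Computable x) (hs : Computable s) :
    Computable fun a => out (p a) (x a) (s a) := by
  have e1 := c_pe
  have e2 := c_pa
  refine ccond (cdecide (cp_lt (by fun_prop) (by fun_prop))) (c_out0 hp hx hs)
    (ccond (c_ev (by fun_prop) hx) (c_out0 (by fun_prop) hx (by fun_prop))
      (c_out0 (by fun_prop) hx hs))

end comp

theorem p_Ph : Partrec₂ Ph := by
  have h : Partrec₂ fun (p : ℕ × ℕ) (y : ℕ) => (Part.some (G p.1 p.2 y) : Part Bool) :=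
    (c_G (by fun_prop) (by fun_prop) (by fun_prop) :
      Computable fun q : (ℕ × ℕ) × ℕ => G q.1.1 q.1.2 q.2).partrec
  exact Partrec.rfind h

theorem p_ph : Partrec₂ ph := by
  have h : Computable₂ fun (p : ℕ × ℕ) (y : ℕ) => out p.1 p.2 y :=
    (c_out (by fun_prop) (by fun_prop) (by fun_prop) :
      Computable fun q : (ℕ × ℕ) × ℕ => out q.1.1 q.1.2 q.2)
  exact Partrec.map p_Ph h

/-! ### Uniqueness of costs -/

theorem steps_mono {p x s t : ℕ} (hst : s ≤ t) (h : (Code.evaln s (cd p) x).isSome) :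
    (Code.evaln t (cd p) x).isSome := by
  obtain ⟨v, hv⟩ := Option.isSome_iff_exists.1 h
  exact Option.isSome_iff_exists.2 ⟨v, Code.evaln_mono hst hv⟩

theorem steps_uniq {p x s t : ℕ} (hs : steps p x s = true) (ht : steps p x t = true) : s = t := by
  unfold steps at hs ht
  simp only [Bool.and_eq_true, Bool.not_eq_true'] at hs ht
  rcases lt_trichotomy s t with h | h | h
  · have := steps_mono (Nat.le_sub_one_of_lt h) hs.1
    rw [ht.2] at this; simp at this
  · exact h
  · have := steps_mono (Nat.le_sub_one_of_lt h) ht.1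
    rw [hs.2] at this; simp at this

theorem steps_pos {p x s : ℕ} (hs : steps p x s = true) : 0 < s := by
  rcases Nat.eq_zero_or_pos s with h | h
  · subst h; simp [steps, Code.evaln] at hs
  · exact h

theorem steps_lt {p x s : ℕ} (hs : steps p x s = true) : x < s := by
  unfold steps at hs
  simp only [Bool.and_eq_true, Bool.not_eq_true'] at hs
  obtain ⟨v, hv⟩ := Option.isSome_iff_exists.1 hs.1
  exact Code.evaln_bound hv

theorem steps_ex {p x : ℕ} (h : ((cd p).eval x).Dom) : ∃ s, steps p x s = true := by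
  classical
  have h1 : ∃ s, (Code.evaln s (cd p) x).isSome := by
    obtain ⟨s, hs⟩ := Code.evaln_complete.1 (Part.get_mem h)
    exact ⟨s, Option.isSome_iff_exists.2 ⟨_, hs⟩⟩
  refine ⟨Nat.find h1, ?_⟩
  unfold steps
  simp only [Bool.and_eq_true, Bool.not_eq_true']
  refine ⟨Nat.find_spec h1, ?_⟩
  have h0 : 0 < Nat.find h1 := by
    rcases Nat.eq_zero_or_pos (Nat.find h1) with h | h
    · have := Nat.find_spec h1
      rw [h] at this
      simp [Code.evaln] at this
    · exact h
  have := Nat.find_min h1 (Nat.sub_one_lt_of_lt h0)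
  simpa using this

theorem steps_outp {p x s : ℕ} (hs : steps p x s = true) : outp p x s ∈ (cd p).eval x := by
  unfold steps at hs
  simp only [Bool.and_eq_true, Bool.not_eq_true'] at hs
  obtain ⟨v, hv⟩ := Option.isSome_iff_exists.1 hs.1
  unfold outp
  rw [hv]
  exact Code.evaln_sound hv

theorem G0_uniq {e x y z : ℕ} (hy : G0 e x y = true) (hz : G0 e x z = true) : y = z := by
  unfold G0 at hy hz
  by_cases h : e.unpair.1 = 0
  · simp only [h, beq_self_eq_true, cond_true] at hy hz
    exact steps_uniq hy hz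
  · have h' : (e.unpair.1 == 0) = false := by simpa using h
    simp only [h', cond_false, beq_iff_eq] at hy hz
    rw [hy, hz]

theorem G_uniq {i x y z : ℕ} (hy : G i x y = true) (hz : G i x z = true) : y = z := by
  unfold G at hy hz
  by_cases h : i.unpair.1 < 2
  · simp only [h, decide_true, cond_true] at hy hz
    exact G0_uniq hy hz
  · simp only [h, decide_false, cond_false] at hy hz
    cases h' : ev (pa i) x with
    | false =>
      simp only [h', cond_false] at hy hz
      exact G0_uniq hy hz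
    | true =>
      simp only [h', cond_true, Bool.and_eq_true, decide_eq_true_eq] at hy hz
      obtain ⟨hy1, hy2, hy3, hy4⟩ := hy
      obtain ⟨hz1, hz2, hz3, hz4⟩ := hz
      have e1 := G0_uniq hy2 hz2
      have e2 := steps_uniq hy3 hz3
      have e3 : (y - 1).unpair.2.unpair.2 = (z - 1).unpair.2.unpair.2 := by
        rw [← hy4, ← hz4, e2]
      have e4 : (y - 1).unpair.2 = (z - 1).unpair.2 := by
        rw [← Nat.pair_unpair (y - 1).unpair.2, ← Nat.pair_unpair (z - 1).unpair.2, e2, e3]
      have e5 : y - 1 = z - 1 := by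
        rw [← Nat.pair_unpair (y - 1), ← Nat.pair_unpair (z - 1), e1, e4]
      omega

theorem mem_GP {i x y : ℕ} {b : Bool} : b ∈ GP i x y ↔ b = G i x y := Part.mem_some_iff

theorem mem_Ph {i x y : ℕ} : y ∈ Ph i x ↔ G i x y = true := by
  unfold Ph
  rw [Nat.mem_rfind, mem_GP]
  constructor
  · rintro ⟨h, -⟩
    exact h.symm
  · intro h
    refine ⟨h.symm, fun {m} hm => ?_⟩
    rw [mem_GP]
    by_contra h'
    have : G i x m = true := by
      cases hh : G i x m with
      | true => rfl
      | false => exact absurd hh.symm h'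
    have := G_uniq h this
    omega

theorem mem_ph {i x v : ℕ} : v ∈ ph i x ↔ ∃ y, G i x y = true ∧ out i x y = v := by
  unfold ph
  rw [Part.mem_map_iff]
  simp only [mem_Ph]

/-! ### The axioms of a Blum measure -/

theorem G_lt {i x y : ℕ} (h : i.unpair.1 < 2) : G i x y = G0 i x y := by
  unfold G; simp [h]

theorem out_lt {i x y : ℕ} (h : i.unpair.1 < 2) : out i x y = out0 i x y := by
  unfold out; simp [h]

theorem G_zero (p x y : ℕ) : G (Nat.pair 0 p) x y = steps p x y := by
  rw [G_lt (by simp)]; unfold G0; simp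

theorem out_zero (p x y : ℕ) : out (Nat.pair 0 p) x y = outp p x y := by
  rw [out_lt (by simp)]; unfold out0; simp

theorem ph_zero (p : ℕ) : ph (Nat.pair 0 p) = (cd p).eval := by
  funext x
  refine Part.ext fun v => ?_
  rw [mem_ph]
  constructor
  · rintro ⟨y, hy, rfl⟩
    rw [G_zero] at hy
    rw [out_zero]
    exact steps_outp hy
  · intro hv
    obtain ⟨s, hs⟩ := steps_ex (p := p) (x := x) (Part.dom_iff_mem.2 ⟨v, hv⟩)
    refine ⟨s, by rw [G_zero]; exact hs, ?_⟩
    rw [out_zero]
    exact Part.mem_unique (steps_outp hs) hv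

theorem acceptable : Acceptable ph := by
  refine ⟨p_ph, fun ψ hψ => ?_⟩
  have h1 : Partrec fun n : ℕ => ψ n.unpair.1 n.unpair.2 :=
    Partrec.comp (f := fun p : ℕ × ℕ => ψ p.1 p.2) hψ
      (g := fun n : ℕ => (n.unpair.1, n.unpair.2)) (by fun_prop)
  obtain ⟨c, hc⟩ := Code.exists_code.1 (Partrec.nat_iff.1 h1)
  refine ⟨fun i => Nat.pair 0 (encode (Code.curry c i)), ?_, fun i => ?_⟩
  · have h2 : Computable fun i : ℕ => encode (Code.curry c i) :=
      Computable.encode.comp ((Code.primrec₂_curry.to_comp).comp (Computable.const c)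
        Computable.id)
    fun_prop
  · rw [ph_zero]
    unfold cd
    rw [Denumerable.ofNat_encode]
    funext x
    rw [Code.eval_curry, hc]
    simp

theorem isBlum : IsBlum ph Ph where
  acc := acceptable
  prec i := Partrec.comp (f := fun p : ℕ × ℕ => Ph p.1 p.2) p_Ph
      (g := fun n : ℕ => (i, n)) (by fun_prop)
  dom i x := by
    unfold ph
    rw [Part.map_Dom]
  dec := by
    have h : Computable fun p : ℕ × ℕ × ℕ => G p.1 p.2.1 p.2.2 :=
      c_G (by fun_prop) (by fun_prop) (by fun_prop)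
    exact ComputablePred.computable_iff.2 ⟨_, h, funext fun p => propext mem_Ph⟩

/-! ### The class of the zero function is not recursively enumerable -/

theorem ev_iff {a x : ℕ} : ev a x = true ↔ ∃ y < x, steps a y x = true := RE.exB_iff _ _

/-- Membership in an index set. -/
theorem mem_idx {t : ℕ → ℕ} {i : ℕ} : i ∈ idx ph Ph t ↔
    (∀ x, ∃ y, G i x y = true) ∧ ∀ᶠ x in atTop, ∃ y, G i x y = true ∧ y ≤ t x := by
  unfold idx
  simp only [Set.mem_ofPred_eq, Part.dom_iff_mem, mem_Ph]
  constructor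
  · rintro ⟨h1, h2⟩
    refine ⟨fun x => ?_, h2⟩
    obtain ⟨v, hv⟩ := h1 x
    obtain ⟨y, hy, -⟩ := mem_ph.1 hv
    exact ⟨y, hy⟩
  · rintro ⟨h1, h2⟩
    refine ⟨fun x => ?_, h2⟩
    obtain ⟨y, hy⟩ := h1 x
    exact ⟨_, mem_ph.2 ⟨y, hy, rfl⟩⟩

/-- The halting set. -/
def K (j : ℕ) : Prop := ((cd j).eval 0).Dom

theorem K_iff {j : ℕ} : K j ↔ ∃ s, (Code.evaln s (cd j) 0).isSome := by
  unfold K
  rw [Part.dom_iff_mem]
  constructor
  · rintro ⟨v, hv⟩
    obtain ⟨s, hs⟩ := Code.evaln_complete.1 hv
    exact ⟨s, Option.isSome_iff_exists.2 ⟨_, hs⟩⟩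
  · rintro ⟨s, hs⟩
    obtain ⟨v, hv⟩ := Option.isSome_iff_exists.1 hs
    exact ⟨v, Code.evaln_sound hv⟩

theorem notK_not_re : ¬ REPred fun j => ¬ K j := by
  intro h
  apply ComputablePred.halting_problem_not_re 0
  have : REPred fun c : Code => ¬ K (encode c) := RE.comp h Computable.encode
  refine this.of_eq fun c => ?_
  unfold K cd
  rw [Denumerable.ofNat_encode]

theorem G_one {j x y : ℕ} : G (Nat.pair 1 j) x y = true ↔
    y = bif (Code.evaln x (cd j) 0).isSome then 1 else 0 := by
  rw [G_lt (by simp)]; unfold G0; simp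

theorem out_one {j x y : ℕ} : out (Nat.pair 1 j) x y = j := by
  rw [out_lt (by simp)]; unfold out0; simp

/-- base indices: if the cost is infinitely often `0`, then the index is of the second type
with a parameter outside `K`. -/
theorem base_zero {e x : ℕ} (h : G0 e x 0 = true) : e.unpair.1 ≠ 0 ∧
    (Code.evaln x (cd e.unpair.2) 0).isSome = false := by
  unfold G0 at h
  by_cases h1 : e.unpair.1 = 0
  · simp only [h1, beq_self_eq_true, cond_true] at h
    exact absurd (steps_pos h) (lt_irrefl _)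
  · have h' : (e.unpair.1 == 0) = false := by simpa using h1
    simp only [h', cond_false, beq_iff_eq] at h
    refine ⟨h1, ?_⟩
    cases hh : (Code.evaln x (cd e.unpair.2) 0).isSome with
    | false => rfl
    | true => rw [hh] at h; simp at h

theorem G_base {i x y : ℕ} (h : G i x y = true) : ∃ e u, (i.unpair.1 < 2 → e = i) ∧
    (¬ i.unpair.1 < 2 → e = pe i) ∧ G0 e x u = true ∧ u ≤ y ∧ out i x y = out0 e x u := by
  by_cases h1 : i.unpair.1 < 2
  · rw [G_lt h1] at h
    exact ⟨i, y, fun _ => rfl, fun h2 => absurd h1 h2, h, le_rfl, out_lt h1⟩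
  · unfold G at h
    unfold out
    rw [decide_eq_false h1, cond_false] at h ⊢
    cases h2 : ev (pa i) x with
    | false =>
      simp only [h2, cond_false] at h
      exact ⟨pe i, y, fun h3 => absurd h3 h1, fun _ => rfl, h, le_rfl, rfl⟩
    | true =>
      simp only [h2, cond_true, Bool.and_eq_true, decide_eq_true_eq] at h
      refine ⟨pe i, (y - 1).unpair.1, fun h3 => absurd h3 h1, fun _ => rfl, h.2.1, ?_, rfl⟩
      exact (Nat.unpair_left_le _).trans (Nat.sub_le _ _)

theorem cls_zero {f : ℕ → ℕ} : f ∈ cls ph Ph (fun _ => 0) ↔ ∃ j, ¬ K j ∧ ∀ x, f x = j := by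
  constructor
  · rintro ⟨i, hi, hf⟩
    rw [mem_idx] at hi
    obtain ⟨N, hN⟩ := eventually_atTop.1 hi.2
    -- the base index
    obtain ⟨e, he1, he2⟩ : ∃ e, (i.unpair.1 < 2 → e = i) ∧ (¬ i.unpair.1 < 2 → e = pe i) := by
      by_cases h1 : i.unpair.1 < 2
      · exact ⟨i, fun _ => rfl, fun h => absurd h1 h⟩
      · exact ⟨pe i, fun h => absurd h h1, fun _ => rfl⟩
    have hb : ∀ x y, G i x y = true → ∃ u, G0 e x u = true ∧ u ≤ y ∧
        out i x y = out0 e x u := by
      intro x y hxy
      obtain ⟨e', u, h1, h2, h3, h4, h5⟩ := G_base hxy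
      have : e' = e := by
        by_cases h : i.unpair.1 < 2
        · rw [h1 h, he1 h]
        · rw [h2 h, he2 h]
      subst this
      exact ⟨u, h3, h4, h5⟩
    have h0 : ∀ x, N ≤ x → e.unpair.1 ≠ 0 ∧
        (Code.evaln x (cd e.unpair.2) 0).isSome = false := by
      intro x hx
      obtain ⟨y, hy, hy0⟩ := hN x hx
      obtain ⟨u, hu, huy, -⟩ := hb x y hy
      have : u = 0 := by omega
      subst this
      exact base_zero hu
    refine ⟨e.unpair.2, ?_, ?_⟩
    · rw [K_iff]
      rintro ⟨s, hs⟩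
      have := steps_mono (le_max_left s N) hs
      rw [(h0 (max s N) (le_max_right _ _)).2] at this
      simp at this
    · intro x
      obtain ⟨y, hy, hxy⟩ := mem_ph.1 (hf x)
      obtain ⟨u, hu, -, hu2⟩ := hb x y hy
      rw [← hxy, hu2]
      have h1 : (e.unpair.1 == 0) = false := by simpa using (h0 N le_rfl).1
      unfold out0
      rw [h1, cond_false]
  · rintro ⟨j, hj, hf⟩
    have hG : ∀ x, G (Nat.pair 1 j) x 0 = true := by
      intro x
      rw [G_one]
      have : (Code.evaln x (cd j) 0).isSome = false := by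
        cases hh : (Code.evaln x (cd j) 0).isSome with
        | false => rfl
        | true => exact absurd (K_iff.2 ⟨x, hh⟩) hj
      rw [this]; rfl
    refine ⟨Nat.pair 1 j, ?_, fun x => ?_⟩
    · rw [mem_idx]
      exact ⟨fun x => ⟨0, hG x⟩, Eventually.of_forall fun x => ⟨0, hG x, le_rfl⟩⟩
    · rw [mem_ph]
      exact ⟨0, hG x, by rw [out_one, hf]⟩

theorem exists_notK : ∃ j, ¬ K j := by
  by_contra h
  push Not at h
  apply notK_not_re
  refine (RE.const (α := ℕ) False).of_eq fun j => ?_
  simp [h j]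

theorem not_reClass : ¬ ReClass ph (cls ph Ph fun _ => 0) := by
  rintro (h | ⟨g, hg, h1, h2⟩)
  · obtain ⟨j, hj⟩ := exists_notK
    have : (fun _ => j) ∈ cls ph Ph (fun _ => 0) := cls_zero.2 ⟨j, hj, fun _ => rfl⟩
    rw [h] at this
    exact this
  · apply notK_not_re
    have h3 : REPred fun j => ∃ n y, G (g n) 0 y = true ∧ out (g n) 0 y = j := by
      apply RE.exN
      apply RE.exN
      apply RE.and
      · exact RE.of_bool (c_G (by fun_prop) (by fun_prop) (by fun_prop))
      · exact RE.eq (c_out (by fun_prop) (by fun_prop) (by fun_prop)) (by fun_prop)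
    refine h3.of_eq fun j => ?_
    constructor
    · rintro ⟨n, y, hy, hj⟩
      obtain ⟨f, hf, hfn⟩ := h1 n
      obtain ⟨j', hj', hfj⟩ := cls_zero.1 hf
      have h4 : j ∈ ph (g n) 0 := mem_ph.2 ⟨y, hy, hj⟩
      have h5 := Part.mem_unique h4 (hfn 0)
      rw [h5, hfj 0]
      exact hj'
    · intro hj
      obtain ⟨n, hn⟩ := h2 (fun _ => j) (cls_zero.2 ⟨j, hj, fun _ => rfl⟩)
      obtain ⟨y, hy, hyj⟩ := mem_ph.1 (hn 0)
      exact ⟨n, y, hy, hyj⟩

/-! ### Conformity -/

/-- Only finitely many elements are ever enumerated by the code `a`. -/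
def FinEv (a : ℕ) : Prop := ∀ᶠ x in atTop, ev a x = false

theorem finEv_iff {a : ℕ} : FinEv a ↔ {n | ((cd a).eval n).Dom}.Finite := by
  classical
  constructor
  · intro h
    obtain ⟨N, hN⟩ := eventually_atTop.1 h
    refine (Set.finite_Iio N).subset fun n hn => ?_
    obtain ⟨s, hs⟩ := steps_ex hn
    have h1 := steps_lt hs
    by_contra h2
    have h3 := hN s (by simp only [Set.mem_Iio, not_lt] at h2; omega)
    have h4 : ev a s = true := ev_iff.2 ⟨n, h1, hs⟩
    rw [h3] at h4
    exact absurd h4 (by simp)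
  · intro h
    set τ : ℕ → ℕ := fun n => if h : ∃ s, steps a n s = true then h.choose else 0 with hτ
    have h1 : {x | ev a x = true} ⊆ τ '' {n | ((cd a).eval n).Dom} := by
      intro x hx
      obtain ⟨n, -, hn⟩ := ev_iff.1 hx
      refine ⟨n, Part.dom_iff_mem.2 ⟨_, steps_outp hn⟩, ?_⟩
      have h2 : ∃ s, steps a n s = true := ⟨x, hn⟩
      simp only [hτ, h2, dif_pos]
      exact steps_uniq h2.choose_spec hn
    obtain ⟨B, hB⟩ := ((h.image τ).subset h1).bddAbove
    refine eventually_atTop.2 ⟨B + 1, fun x hx => ?_⟩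
    by_contra h2
    have h3 : ev a x = true := by
      cases hh : ev a x with
      | true => rfl
      | false => exact absurd hh h2
    have := hB h3
    omega

/-- the bound -/
def bd (t : ℕ → ℕ) (m x : ℕ) : ℕ := max (t x) (bif decide (x < m) then m else 0)

/-- the guess `m` is refuted -/
def RF (t : ℕ → ℕ) (i m : ℕ) : Prop := ∃ x, ∀ y < bd t m x + 1, (!(G i x y)) = true

theorem not_RF {t : ℕ → ℕ} {i m : ℕ} : ¬ RF t i m ↔ ∀ x, ∃ y ≤ bd t m x, G i x y = true := by
  unfold RF
  push Not
  refine forall_congr' fun x => exists_congr fun y => ?_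
  constructor
  · rintro ⟨h1, h2⟩
    refine ⟨by omega, ?_⟩
    cases hh : G i x y with
    | true => rfl
    | false => rw [hh] at h2; simp at h2
  · rintro ⟨h1, h2⟩
    refine ⟨by omega, ?_⟩
    rw [h2]; simp

theorem RF_mono {t : ℕ → ℕ} {i m m' : ℕ} (h : m ≤ m') (h1 : ¬ RF t i m) : ¬ RF t i m' := by
  rw [not_RF] at h1 ⊢
  intro x
  obtain ⟨y, hy, hG⟩ := h1 x
  refine ⟨y, hy.trans ?_, hG⟩
  unfold bd
  refine max_le_max le_rfl ?_
  by_cases h2 : x < m
  · rw [decide_eq_true h2, decide_eq_true (lt_of_lt_of_le h2 h)]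
    exact h
  · rw [decide_eq_false h2]
    exact Nat.zero_le _

theorem idx_iff {t : ℕ → ℕ} {i : ℕ} : i ∈ idx ph Ph t ↔ ∃ m, ¬ RF t i m := by
  rw [mem_idx]
  constructor
  · rintro ⟨h1, h2⟩
    obtain ⟨N, hN⟩ := eventually_atTop.1 h2
    choose c hc using h1
    refine ⟨max N ((Finset.range N).sup c), ?_⟩
    rw [not_RF]
    intro x
    refine ⟨c x, ?_, hc x⟩
    unfold bd
    rcases lt_or_ge x N with h | h
    · refine le_max_of_le_right ?_
      rw [decide_eq_true (lt_of_lt_of_le h (le_max_left _ _)), cond_true]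
      exact le_max_of_le_right (Finset.le_sup (f := c) (Finset.mem_range.2 h))
    · obtain ⟨y, hy, hyt⟩ := hN x h
      rw [G_uniq (hc x) hy]
      exact le_max_of_le_left hyt
  · rintro ⟨m, hm⟩
    rw [not_RF] at hm
    refine ⟨fun x => ?_, eventually_atTop.2 ⟨m, fun x hx => ?_⟩⟩
    · obtain ⟨y, -, hy⟩ := hm x
      exact ⟨y, hy⟩
    · obtain ⟨y, hy, hG⟩ := hm x
      refine ⟨y, hG, ?_⟩
      unfold bd at hy
      rw [decide_eq_false (not_lt.2 hx), cond_false] at hy
      simpa using hy

theorem RF_re {t : ℕ → ℕ} (ht : Computable t) : REPred fun p : ℕ × ℕ => RF t p.1 p.2 := by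
  unfold RF
  apply RE.exN
  have hb : Computable fun q : (ℕ × ℕ) × ℕ => bd t q.1.2 q.2 + 1 := by
    unfold bd
    have h1 : Computable fun q : (ℕ × ℕ) × ℕ => decide (q.2 < q.1.2) :=
      cdecide (cp_lt (by fun_prop) (by fun_prop))
    fun_prop
  refine RE.all_lt (p := fun (q : (ℕ × ℕ) × ℕ) y => (!(G q.1.1 q.2 y)) = true) ?_ hb
  exact RE.of_bool (cnot (c_G (by fun_prop) (by fun_prop) (by fun_prop)))

/-- Every index set is one-one reducible to finiteness. -/
theorem idx_red {t : ℕ → ℕ} (ht : Computable t) : (· ∈ idx ph Ph t) ≤₁ FinEv := by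
  have h1 : REPred fun n : ℕ => RF t n.unpair.1 n.unpair.2 := by
    have : Computable fun n : ℕ => (n.unpair.1, n.unpair.2) := by fun_prop
    exact RE.comp (RF_re ht) this
  obtain ⟨q, hq, hq1⟩ := RE.re_iff.1 h1
  have h2 : Partrec fun n : ℕ => Nat.rfind fun s => Part.some (q n s) := Partrec.rfind hq.partrec₂
  obtain ⟨c, hc⟩ := Code.exists_code.1 (Partrec.nat_iff.1 h2)
  have hdom : ∀ n, (c.eval n).Dom ↔ RF t n.unpair.1 n.unpair.2 := by
    intro n
    rw [hc, hq1]
    have : (Nat.rfind fun s => Part.some (q n s)).Dom ↔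
        ∃ s, true ∈ (fun s => Part.some (q n s) : ℕ →. Bool) s ∧
          ∀ {m : ℕ}, m < s → ((fun s => Part.some (q n s) : ℕ →. Bool) m).Dom := Nat.rfind_dom
    rw [this]
    refine exists_congr fun s => ?_
    constructor
    · rintro ⟨h, -⟩
      exact (Part.mem_some_iff.1 h).symm
    · intro h
      exact ⟨Part.mem_some_iff.2 h.symm, fun _ => trivial⟩
  refine ⟨fun i => encode (Code.curry c i), ?_, ?_, fun i => ?_⟩
  · exact Computable.encode.comp ((Code.primrec₂_curry.to_comp).comp (Computable.const c)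
        Computable.id)
  · intro i j hij
    exact (Code.curry_inj (Encodable.encode_injective hij)).2
  · show i ∈ idx ph Ph t ↔ _
    rw [idx_iff, finEv_iff]
    have hW : {n | ((cd (encode (Code.curry c i))).eval n).Dom} = {m | RF t i m} := by
      ext m
      simp only [Set.mem_ofPred_eq]
      unfold cd
      rw [Denumerable.ofNat_encode, Code.eval_curry, hdom]
      simp
    rw [hW]
    constructor
    · rintro ⟨m, hm⟩
      refine (Set.finite_Iio m).subset fun n hn => ?_
      by_contra h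
      exact RF_mono (not_lt.1 h) hm hn
    · intro h
      by_contra h'
      push Not at h'
      exact Set.infinite_univ (h.subset fun m _ => h' m)

theorem G_two_false {e a k x y : ℕ} (h : ev a x = false) :
    G (Nat.pair 2 (Nat.pair e (Nat.pair a k))) x y = G0 e x y := by
  unfold G pe pa pk
  simp [h]

theorem G_two_true {e a k x y : ℕ} (h : ev a x = true) :
    G (Nat.pair 2 (Nat.pair e (Nat.pair a k))) x y = true ↔
      ∃ u s, y = Nat.pair u (Nat.pair s (outp k x s)) + 1 ∧ G0 e x u = true ∧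
        steps k x s = true := by
  unfold G pe pa pk
  simp only [Nat.unpair_pair, h, cond_true]
  rw [decide_eq_false (by omega), cond_false]
  simp only [Bool.and_eq_true, decide_eq_true_eq]
  constructor
  · rintro ⟨h1, h2, h3, h4⟩
    refine ⟨_, _, ?_, h2, h3⟩
    rw [h4, Nat.pair_unpair, Nat.pair_unpair]
    omega
  · rintro ⟨u, s, rfl, h1, h2⟩
    simp [h1, h2]

/-- Finiteness is one-one reducible to every nonempty complexity class. -/
theorem red_idx {t : ℕ → ℕ} (ht : Computable t) (hne : (cls ph Ph t).Nonempty) :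
    FinEv ≤₁ (· ∈ idx ph Ph t) := by
  obtain ⟨f, i, hi, -⟩ := hne
  rw [mem_idx] at hi
  -- the base index
  obtain ⟨e, he1, he2⟩ : ∃ e, (i.unpair.1 < 2 → e = i) ∧ (¬ i.unpair.1 < 2 → e = pe i) := by
    by_cases h1 : i.unpair.1 < 2
    · exact ⟨i, fun _ => rfl, fun h => absurd h1 h⟩
    · exact ⟨pe i, fun h => absurd h h1, fun _ => rfl⟩
  have hb : ∀ x y, G i x y = true → ∃ u, G0 e x u = true ∧ u ≤ y := by
    intro x y hxy
    obtain ⟨e', u, h1, h2, h3, h4, h5⟩ := G_base hxy
    have : e' = e := by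
      by_cases h : i.unpair.1 < 2
      · rw [h1 h, he1 h]
      · rw [h2 h, he2 h]
    subst this
    exact ⟨u, h3, h4⟩
  have htot : ∀ x, ∃ u, G0 e x u = true := by
    intro x
    obtain ⟨y, hy⟩ := hi.1 x
    obtain ⟨u, hu, -⟩ := hb x y hy
    exact ⟨u, hu⟩
  have hev : ∀ᶠ x in atTop, ∃ u, G0 e x u = true ∧ u ≤ t x := by
    filter_upwards [hi.2] with x hx
    obtain ⟨y, hy, hyt⟩ := hx
    obtain ⟨u, hu, huy⟩ := hb x y hy
    exact ⟨u, hu, huy.trans hyt⟩
  obtain ⟨c, hc⟩ := Code.exists_code.1 (Partrec.nat_iff.1 ht.partrec)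
  set k := encode c with hk
  have hk1 : ∀ x s, steps k x s = true → outp k x s = t x := by
    intro x s hs
    have h1 := steps_outp hs
    unfold cd at h1
    rw [hk, Denumerable.ofNat_encode, hc] at h1
    exact Part.mem_some_iff.1 h1
  have hk2 : ∀ x, ∃ s, steps k x s = true := by
    intro x
    apply steps_ex
    unfold cd
    rw [hk, Denumerable.ofNat_encode, hc]
    trivial
  refine ⟨fun a => Nat.pair 2 (Nat.pair e (Nat.pair a k)), by fun_prop, ?_, fun a => ?_⟩
  · intro a b hab
    simp only [Nat.pair_eq_pair] at hab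
    exact hab.2.2.1
  · show _ ↔ Nat.pair 2 (Nat.pair e (Nat.pair a k)) ∈ idx ph Ph t
    rw [mem_idx]
    have htot' : ∀ x, ∃ y, G (Nat.pair 2 (Nat.pair e (Nat.pair a k))) x y = true := by
      intro x
      obtain ⟨u, hu⟩ := htot x
      cases h : ev a x with
      | false => exact ⟨u, by rw [G_two_false h]; exact hu⟩
      | true =>
        obtain ⟨s, hs⟩ := hk2 x
        exact ⟨_, (G_two_true h).2 ⟨u, s, rfl, hu, hs⟩⟩
    constructor
    · intro h
      refine ⟨htot', ?_⟩
      filter_upwards [h, hev] with x hx hx2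
      obtain ⟨u, hu, hut⟩ := hx2
      exact ⟨u, by rw [G_two_false hx]; exact hu, hut⟩
    · rintro ⟨-, h⟩
      unfold FinEv
      filter_upwards [h] with x hx
      obtain ⟨y, hy, hyt⟩ := hx
      cases h' : ev a x with
      | false => rfl
      | true =>
        obtain ⟨u, s, hy1, -, hs⟩ := (G_two_true h').1 hy
        have h1 := hk1 x s hs
        have h2 := Nat.right_le_pair u (Nat.pair s (outp k x s))
        have h3 := Nat.right_le_pair s (outp k x s)
        omega

theorem conform : Conform ph Ph := by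
  intro t₁ t₂ h1 h2 hn1 hn2
  exact ⟨(idx_red h1).trans (red_idx h2 hn2), (idx_red h2).trans (red_idx h1 hn1)⟩

/-- The negated form of Q1: there are a conform Blum measure `Φ` and a recursive `t` such that
the complexity class `Φ(t)` is not recursively enumerable. -/
theorem result : ∃ φ Φ : ℕ → ℕ →. ℕ, IsBlum φ Φ ∧ Conform φ Φ ∧
    ∃ t : ℕ → ℕ, Computable t ∧ ¬ ReClass φ (cls φ Φ t) :=
  ⟨ph, Ph, isBlum, conform, fun _ => 0, Computable.const 0, not_reClass⟩

end Pool.Agent.Results.MP_9ab454_lc.ConformNotRe
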